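import Mathlib

/-!
# Endomorphisms of projective space with marked periodic points: definitions
-/

namespace Pool.Agent.H9.DynMod

open MvPolynomial

/-- `N + 1` forms of degree `d` in `N + 1` variables without common zero: an endomorphism of
`P^N` of degree `d`. -/
def IsEndo {N : ℕ} (d : ℕ) (f : Fin (N + 1) → MvPolynomial (Fin (N + 1)) ℂ) : Prop :=
  (∀ i, (f i).IsHomogeneous d) ∧ ∀ x : Fin (N + 1) → ℂ, (∀ i, eval x (f i) = 0) → x = 0

/-- The forms `f` applied to a vector of homogeneous coordinates. -/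
noncomputable def act {N : ℕ} (f : Fin (N + 1) → MvPolynomial (Fin (N + 1)) ℂ)
    (x : Fin (N + 1) → ℂ) : Fin (N + 1) → ℂ :=
  fun i => eval x (f i)

/-- Two vectors of homogeneous coordinates give the same point of `P^N`. -/
def SamePt {N : ℕ} (x y : Fin (N + 1) → ℂ) : Prop := ∃ c : ℂ, c ≠ 0 ∧ y = c • x

/-- `P` is a point of `P^N` of exact period `n` for `f`. -/
def ExactPeriod {N : ℕ} (f : Fin (N + 1) → MvPolynomial (Fin (N + 1)) ℂ) (n : ℕ)
    (P : Fin (N + 1) → ℂ) : Prop :=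
  P ≠ 0 ∧ SamePt P ((act f)^[n] P) ∧ ∀ m : ℕ, 1 ≤ m → m < n → ¬ SamePt P ((act f)^[m] P)

/-- `f` and `g` are conjugate under `PGL_{N+1}`, by the class of an invertible matrix `A`. -/
def ConjEndo {N : ℕ} (f g : Fin (N + 1) → MvPolynomial (Fin (N + 1)) ℂ) : Prop :=
  ∃ (A : Matrix (Fin (N + 1)) (Fin (N + 1)) ℂ) (c : ℂ), A.det ≠ 0 ∧ c ≠ 0 ∧
    ∀ x, act f (A.mulVec x) = c • A.mulVec (act g x)

/-- The member at `t` of a family of forms whose coefficients are polynomials in one parameter. -/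
noncomputable def member {N : ℕ} (f : Fin (N + 1) → MvPolynomial (Fin (N + 1)) (Polynomial ℂ))
    (t : ℂ) : Fin (N + 1) → MvPolynomial (Fin (N + 1)) ℂ :=
  fun i => MvPolynomial.map (Polynomial.evalRingHom t) (f i)

end Pool.Agent.H9.DynMod
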