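import Pool.Agent.H9.DynMod.Defs

/-!
# A family with a constant point of period `n`
-/

namespace Pool.Agent.H9.DynMod

open MvPolynomial

variable {N : ℕ}

/-- The family: `x_i ^ d` for `i ≠ i₂`, and `x_{i₂}^d + t x_{i₀}^{d-1} x_{i₂}`. -/
noncomputable def fam (d : ℕ) (i₀ i₂ : Fin (N + 1)) (t : ℂ) :
    Fin (N + 1) → MvPolynomial (Fin (N + 1)) ℂ :=
  fun i => X i ^ d + if i = i₂ then C t * (X i₀ ^ (d - 1) * X i₂) else 0

noncomputable def famP (d : ℕ) (i₀ i₂ : Fin (N + 1)) :
    Fin (N + 1) → MvPolynomial (Fin (N + 1)) (Polynomial ℂ) :=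
  fun i => X i ^ d + if i = i₂ then C Polynomial.X * (X i₀ ^ (d - 1) * X i₂) else 0

theorem member_famP (d : ℕ) (i₀ i₂ : Fin (N + 1)) (t : ℂ) :
    member (famP d i₀ i₂) t = fam d i₀ i₂ t := by
  funext i
  simp only [member, famP, fam]
  split_ifs with h
  · simp
  · simp

theorem act_fam (d : ℕ) (i₀ i₂ : Fin (N + 1)) (t : ℂ) (x : Fin (N + 1) → ℂ) (i : Fin (N + 1)) :
    act (fam d i₀ i₂ t) x i = x i ^ d + if i = i₂ then t * (x i₀ ^ (d - 1) * x i₂) else 0 := by
  simp only [act, fam]
  split_ifs with h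
  · simp
  · simp

theorem isEndo_fam {d : ℕ} (hd : 2 ≤ d) {i₀ i₂ : Fin (N + 1)} (h02 : i₀ ≠ i₂) (t : ℂ) :
    IsEndo d (fam d i₀ i₂ t) := by
  refine ⟨fun i => ?_, fun x hx => ?_⟩
  · have h1 : (X i ^ d : MvPolynomial (Fin (N + 1)) ℂ).IsHomogeneous d := isHomogeneous_X_pow i d
    rw [fam]
    split_ifs with h
    · refine h1.add ?_
      have h2 : (X i₀ ^ (d - 1) * X i₂ : MvPolynomial (Fin (N + 1)) ℂ).IsHomogeneous (d - 1 + 1) :=
        (isHomogeneous_X_pow i₀ (d - 1)).mul (isHomogeneous_X ℂ i₂)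
      have h3 : d - 1 + 1 = d := by omega
      rw [h3] at h2
      exact h2.C_mul t
    · rw [add_zero]
      exact h1
  · have h0 : x i₀ = 0 := by
      have := hx i₀
      change act (fam d i₀ i₂ t) x i₀ = 0 at this
      rw [act_fam, if_neg h02, add_zero] at this
      exact eq_zero_of_pow_eq_zero this
    funext i
    have := hx i
    change act (fam d i₀ i₂ t) x i = 0 at this
    rw [act_fam, h0, zero_pow (by omega), zero_mul, mul_zero, ite_self, add_zero] at this
    exact eq_zero_of_pow_eq_zero this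

/-- The periodic point. -/
def pt (i₀ i₁ : Fin (N + 1)) (z : ℂ) : Fin (N + 1) → ℂ :=
  fun i => if i = i₀ then 1 else if i = i₁ then z else 0

theorem act_pt {d : ℕ} (hd : 2 ≤ d) {i₀ i₁ i₂ : Fin (N + 1)} (h02 : i₀ ≠ i₂) (h12 : i₁ ≠ i₂)
    (t z : ℂ) : act (fam d i₀ i₂ t) (pt i₀ i₁ z) = pt i₀ i₁ (z ^ d) := by
  funext i
  rw [act_fam]
  have h2 : pt i₀ i₁ z i₂ = 0 := by
    rw [pt, if_neg h02.symm, if_neg h12.symm]
  rw [h2, mul_zero, mul_zero, ite_self, add_zero]
  simp only [pt]
  split_ifs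
  · exact one_pow d
  · rfl
  · exact zero_pow (by omega)

theorem iterate_pt {d : ℕ} (hd : 2 ≤ d) {i₀ i₁ i₂ : Fin (N + 1)} (h02 : i₀ ≠ i₂) (h12 : i₁ ≠ i₂)
    (t z : ℂ) (m : ℕ) : (act (fam d i₀ i₂ t))^[m] (pt i₀ i₁ z) = pt i₀ i₁ (z ^ d ^ m) := by
  induction m with
  | zero => simp
  | succ m ih =>
    rw [Function.iterate_succ_apply', ih, act_pt hd h02 h12, ← pow_mul, ← pow_succ]

theorem samePt_iff {i₀ i₁ : Fin (N + 1)} (h01 : i₀ ≠ i₁) (z w : ℂ) :
    SamePt (pt i₀ i₁ z) (pt i₀ i₁ w) ↔ w = z := by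
  constructor
  · rintro ⟨c, -, h⟩
    have h0 := congrFun h i₀
    have h1 := congrFun h i₁
    simp only [pt, Pi.smul_apply, smul_eq_mul, if_true, if_neg h01.symm] at h0 h1
    rw [h1, ← mul_one c, ← h0, one_mul]
  · rintro rfl
    exact ⟨1, one_ne_zero, (one_smul _ _).symm⟩

theorem exactPeriod_pt {d : ℕ} (hd : 2 ≤ d) {i₀ i₁ i₂ : Fin (N + 1)} (h01 : i₀ ≠ i₁)
    (h02 : i₀ ≠ i₂) (h12 : i₁ ≠ i₂) {n : ℕ} (hn : 1 ≤ n) :
    ∃ z : ℂ, ∀ t, ExactPeriod (fam d i₀ i₂ t) n (pt i₀ i₁ z) := by
  have hdn : 2 ≤ d ^ n := le_trans hd (Nat.le_self_pow (by omega) d)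
  have hprim := Complex.isPrimitiveRoot_exp (d ^ n - 1) (by omega)
  set z := Complex.exp (2 * Real.pi * Complex.I / ((d ^ n - 1 : ℕ) : ℂ)) with hz
  have hz0 : z ≠ 0 := Complex.exp_ne_zero _
  have key : ∀ m : ℕ, z ^ d ^ m = z ↔ (d ^ n - 1) ∣ (d ^ m - 1) := by
    intro m
    have hm : 1 ≤ d ^ m := Nat.one_le_pow _ _ (by omega)
    rw [← hprim.pow_eq_one_iff_dvd]
    have e : z ^ d ^ m = z ^ (d ^ m - 1) * z := by
      rw [← pow_succ]
      congr 1
      omega
    rw [e]
    constructor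
    · intro h
      exact mul_right_cancel₀ hz0 (h.trans (one_mul z).symm)
    · intro h
      rw [h, one_mul]
  refine ⟨z, fun t => ⟨?_, ?_, ?_⟩⟩
  · intro h
    have := congrFun h i₀
    simp [pt] at this
  · rw [iterate_pt hd h02 h12, samePt_iff h01, key]
  · intro m hm1 hmn
    rw [iterate_pt hd h02 h12, samePt_iff h01, key]
    intro hdvd
    have h1 : d ^ m < d ^ n := Nat.pow_lt_pow_right (by omega) hmn
    have h2 : 2 ≤ d ^ m := le_trans hd (Nat.le_self_pow (by omega) d)
    have := Nat.le_of_dvd (by omega) hdvd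
    omega

/-- Conjugate members have related parameters. -/
theorem param_of_conj {d : ℕ} (hd : 2 ≤ d) {i₀ i₂ : Fin (N + 1)} (h02 : i₀ ≠ i₂) (s t : ℂ)
    (h : ConjEndo (fam d i₀ i₂ s) (fam d i₀ i₂ t)) :
    s = 0 ∨ s = d ∨ s = t ∨ s = d * (1 - t) + t := by
  obtain ⟨A, c, hA, hc, h⟩ := h
  have hu : IsUnit A.det := isUnit_iff_ne_zero.2 hA
  set v := A⁻¹.mulVec (Pi.single i₀ 1) with hv
  set w := A⁻¹.mulVec (Pi.single i₂ 1) with hw
  have hAv : A.mulVec v = Pi.single i₀ 1 := by
    rw [hv, Matrix.mulVec_mulVec, Matrix.mul_nonsing_inv _ hu, Matrix.one_mulVec]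
  have hAw : A.mulVec w = Pi.single i₂ 1 := by
    rw [hw, Matrix.mulVec_mulVec, Matrix.mul_nonsing_inv _ hu, Matrix.one_mulVec]
  have hw0 : w ≠ 0 := by
    intro h0
    rw [h0, Matrix.mulVec_zero] at hAw
    have := congrFun hAw i₂
    simp at this
  -- the restriction of the conjugacy to the plane spanned by `v` and `w`
  have hkey : ∀ ε : ℂ, act (fam d i₀ i₂ t) (v + ε • w) = c⁻¹ • (v + (ε ^ d + s * ε) • w) := by
    intro ε
    have h1 := h (v + ε • w)
    have h2 : A.mulVec (v + ε • w) = Pi.single i₀ 1 + ε • Pi.single i₂ 1 := by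
      rw [Matrix.mulVec_add, Matrix.mulVec_smul, hAv, hAw]
    have h3 : act (fam d i₀ i₂ s) (Pi.single i₀ 1 + ε • Pi.single i₂ 1)
        = Pi.single i₀ 1 + (ε ^ d + s * ε) • (Pi.single i₂ 1 : Fin (N + 1) → ℂ) := by
      funext i
      rw [act_fam]
      by_cases hi2 : i = i₂
      · subst hi2
        simp [Pi.single_apply, h02, h02.symm]
      · by_cases hi0 : i = i₀
        · subst hi0
          simp [Pi.single_apply, hi2]
        · simp [Pi.single_apply, hi0, hi2]
          omega
    rw [h2, h3] at h1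
    have h4 := congrArg (fun y => c⁻¹ • A⁻¹.mulVec y) h1
    simp only [Matrix.mulVec_smul, Matrix.mulVec_mulVec, Matrix.nonsing_inv_mul _ hu,
      Matrix.one_mulVec, Matrix.mulVec_add] at h4
    rw [← hv, ← hw, smul_smul, inv_mul_cancel₀ hc, one_smul] at h4
    exact h4.symm
  -- coefficients of the components
  have hcomp : ∀ i, ∀ ε : ℂ, (v i + ε * w i) ^ d
      + (if i = i₂ then t * ((v i₀ + ε * w i₀) ^ (d - 1) * (v i₂ + ε * w i₂)) else 0)
      = c⁻¹ * (v i + (ε ^ d + s * ε) * w i) := by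
    intro i ε
    have := congrFun (hkey ε) i
    rw [act_fam] at this
    simpa using this
  have hzero : ∀ i, (v i) ^ d + (if i = i₂ then t * ((v i₀) ^ (d - 1) * (v i₂)) else 0)
      = c⁻¹ * v i := by
    intro i
    have := hcomp i 0
    simpa [zero_pow (by omega : d ≠ 0)] using this
  have hlin : ∀ i, i ≠ i₂ → d * (v i) ^ (d - 1) * w i = c⁻¹ * (s * w i) := by
    intro i hi
    have h1 : (Polynomial.C (v i) + Polynomial.X * Polynomial.C (w i)) ^ d
        = Polynomial.C c⁻¹ * (Polynomial.C (v i)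
          + (Polynomial.X ^ d + Polynomial.C s * Polynomial.X) * Polynomial.C (w i)) := by
      apply Polynomial.funext
      intro ε
      have := hcomp i ε
      rw [if_neg hi, add_zero] at this
      simp only [Polynomial.eval_add, Polynomial.eval_mul, Polynomial.eval_pow, Polynomial.eval_C,
        Polynomial.eval_X]
      linear_combination this
    have h2 := congrArg (fun p => Polynomial.eval 0 (Polynomial.derivative p)) h1
    simp only [Polynomial.derivative_pow, Polynomial.derivative_add, Polynomial.derivative_mul,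
      Polynomial.derivative_C, Polynomial.derivative_X, Polynomial.derivative_X_pow] at h2
    simp [zero_pow (by omega : d - 1 ≠ 0)] at h2
    linear_combination h2
  by_cases hex : ∃ i, i ≠ i₂ ∧ w i ≠ 0
  · obtain ⟨i, hi, hwi⟩ := hex
    have h1 := hlin i hi
    have h2 : d * (v i) ^ (d - 1) = c⁻¹ * s := by
      apply mul_right_cancel₀ hwi
      rw [h1]
      ring
    by_cases hvi : v i = 0
    · rw [hvi, zero_pow (by omega), mul_zero] at h2
      left
      exact (mul_eq_zero.1 h2.symm).resolve_left (inv_ne_zero hc)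
    · right; left
      have h3 := hzero i
      rw [if_neg hi, add_zero] at h3
      have h4 : (v i) ^ (d - 1) = c⁻¹ := by
        apply mul_right_cancel₀ hvi
        rw [← pow_succ]
        have : d - 1 + 1 = d := by omega
        rw [this, h3]
      rw [h4] at h2
      have := mul_left_cancel₀ (inv_ne_zero hc) (h2.symm.trans (mul_comm _ _))
      exact this
  · push Not at hex
    have hw2 : w i₂ ≠ 0 := by
      intro h0
      apply hw0
      funext i
      by_cases hi : i = i₂
      · rw [hi, h0]; rfl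
      · exact hex i hi
    have hwi0 : w i₀ = 0 := hex i₀ h02
    have h1 : (Polynomial.C (v i₂) + Polynomial.X * Polynomial.C (w i₂)) ^ d
        + Polynomial.C (t * (v i₀) ^ (d - 1)) *
          (Polynomial.C (v i₂) + Polynomial.X * Polynomial.C (w i₂))
        = Polynomial.C c⁻¹ * (Polynomial.C (v i₂)
          + (Polynomial.X ^ d + Polynomial.C s * Polynomial.X) * Polynomial.C (w i₂)) := by
      apply Polynomial.funext
      intro ε
      have := hcomp i₂ ε
      rw [if_pos rfl, hwi0, mul_zero, add_zero] at this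
      simp only [Polynomial.eval_add, Polynomial.eval_mul, Polynomial.eval_pow, Polynomial.eval_C,
        Polynomial.eval_X]
      linear_combination this
    have h2 := congrArg (fun p => Polynomial.eval 0 (Polynomial.derivative p)) h1
    simp only [Polynomial.derivative_pow, Polynomial.derivative_add, Polynomial.derivative_mul,
      Polynomial.derivative_C, Polynomial.derivative_X, Polynomial.derivative_X_pow] at h2
    simp [zero_pow (by omega : d - 1 ≠ 0)] at h2
    have h3 : d * (v i₂) ^ (d - 1) + t * (v i₀) ^ (d - 1) = c⁻¹ * s := by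
      apply mul_right_cancel₀ hw2
      linear_combination h2
    have h4 := hzero i₂
    rw [if_pos rfl] at h4
    have h5 := hzero i₀
    rw [if_neg h02, add_zero] at h5
    have hsucc : d - 1 + 1 = d := by omega
    have h6 : v i₀ = 0 ∨ (v i₀) ^ (d - 1) = c⁻¹ := by
      by_cases h0 : v i₀ = 0
      · exact Or.inl h0
      · right
        apply mul_right_cancel₀ h0
        rw [← pow_succ, hsucc, h5]
    have h7 : v i₂ = 0 ∨ (v i₂) ^ (d - 1) + t * (v i₀) ^ (d - 1) = c⁻¹ := by
      by_cases h0 : v i₂ = 0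
      · exact Or.inl h0
      · right
        apply mul_right_cancel₀ h0
        rw [add_mul, ← pow_succ, hsucc, ← h4]
        ring
    have hci := inv_ne_zero hc
    rcases h6 with h6 | h6
    · rw [h6, zero_pow (by omega), mul_zero, add_zero] at h3 h7
      rcases h7 with h7 | h7
      · rw [h7, zero_pow (by omega), mul_zero] at h3
        left
        exact (mul_eq_zero.1 h3.symm).resolve_left hci
      · right; left
        rw [h7] at h3
        exact mul_left_cancel₀ hci (h3.symm.trans (mul_comm _ _))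
    · rw [h6] at h3 h7
      rcases h7 with h7 | h7
      · right; right; left
        rw [h7, zero_pow (by omega), mul_zero, zero_add] at h3
        exact mul_left_cancel₀ hci (h3.symm.trans (mul_comm _ _))
      · right; right; right
        apply mul_left_cancel₀ hci
        rw [← h3]
        linear_combination (d : ℂ) * h7

theorem main (N d : ℕ) (hN : 2 ≤ N) (hd : 2 ≤ d) :
    ∃ f : Fin (N + 1) → MvPolynomial (Fin (N + 1)) (Polynomial ℂ),
      (∀ t, IsEndo d (member f t)) ∧
      (∀ t, {s | ConjEndo (member f s) (member f t)}.Finite) ∧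
      ∀ n, 1 ≤ n → ∃ P : Fin (N + 1) → ℂ, ∀ t, ExactPeriod (member f t) n P := by
  set i₀ : Fin (N + 1) := ⟨0, by omega⟩
  set i₁ : Fin (N + 1) := ⟨1, by omega⟩
  set i₂ : Fin (N + 1) := ⟨2, by omega⟩
  have h01 : i₀ ≠ i₁ := by simp [i₀, i₁]
  have h02 : i₀ ≠ i₂ := by simp [i₀, i₂]
  have h12 : i₁ ≠ i₂ := by simp [i₁, i₂]
  refine ⟨famP d i₀ i₂, fun t => ?_, fun t => ?_, fun n hn => ?_⟩
  · rw [member_famP]
    exact isEndo_fam hd h02 t
  · simp only [member_famP]
    refine Set.Finite.subset (Set.toFinite {0, (d : ℂ), t, d * (1 - t) + t}) ?_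
    intro s hs
    have := param_of_conj hd h02 s t hs
    simpa using this
  · obtain ⟨z, hz⟩ := exactPeriod_pt hd h01 h02 h12 hn
    refine ⟨pt i₀ i₁ z, fun t => ?_⟩
    rw [member_famP]
    exact hz t

end Pool.Agent.H9.DynMod
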